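import Pool.Agent.helper82.LEQ.Spec
import Pool.Agent.helper11.LEQ.AC
import Pool.Agent.helper54.LEQ.CA1
import Pool.Agent.helper48.LEQ.CA2
import Pool.Agent.helper77.LEQ.D2
import Pool.Agent.helper13.LEQ.DE
import Pool.Agent.helper53.LEQ.DEC
import Pool.Agent.helper32.LEQ.DJ
import Pool.Agent.helper89.LEQ.EMP
import Pool.Agent.helper13.LEQ.FAC
import Pool.Agent.helper72.LEQ.FIN
import Pool.Agent.helper46.LEQ.LM
import Pool.Agent.helper38.LEQ.MAIN
import Pool.Agent.helper8.LEQ.MB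
import Pool.Agent.helper34.LEQ.MU
import Pool.Agent.helper39.LEQ.NF
import Pool.Agent.helper67.LEQ.PD
import Pool.Agent.helper31.LEQ.PHI
import Pool.Agent.helper57.LEQ.PRA
import Pool.Agent.helper18.LEQ.PRO
import Pool.Agent.helper85.LEQ.SPL
import Pool.Agent.helper53.LEQ.TR
import Pool.Agent.helper53.LEQ.W1
import Pool.Agent.helper70.LEQ.W3
import Pool.Agent.helper38.LEQ.W4
import Pool.Agent.helper43.LEQ.W5
import Pool.Agent.helper23.LEQ.WEB
import Pool.Agent.helper17.LEQ.XB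
import Pool.Agent.helper90.LEQ.XC
import Pool.Agent.helper32.LEQ.XK
import Pool.Agent.helper23.LEQ.XO
import Pool.Agent.helper52.LEQ.XT
import Pool.Agent.helper35.LEQ.XR

/-!
# LEQ: the assembly
-/

set_option autoImplicit false

namespace LEQ

theorem final : FIN_stmt := by
  have hXR := XR
  have hXT := XT
  have hXB := XB hXT
  have hXO := XO hXR
  have hXK := XK hXR hXO
  have hXC := XC hXR hXK
  have hMB := MB hXT
  have hMU := MU hMB
  have hLM := LM hXT
  have hTR := TR hLM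
  have hDEC := DEC hMB hMU
  have hD2 := D2 hDEC
  have hPRO := PRO hMB PRA
  have hPHI := PHI hMB
  have hW1 := W1 hXT hLM hPHI
  have hW3 := W3 hXC
  have hW4 := W4 hW1
  have hW5 := W5 hXB hW1 hW3 hW4
  have hWEB := WEB hTR hW5
  have hSPL := SPL hPRO hWEB
  have hNF := NF AC
  have hDJ := DJ AC
  have hCA1 := CA1 AC hNF hDJ DE PD hSPL
  have hCA2 := CA2 AC hNF hDJ DE PD hSPL
  have hEMP := EMP AC
  have hFAC := FAC AC hDJ hPRO
  have hMAIN := MAIN hNF hLM hD2 hCA1 hCA2 hEMP hFAC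
  exact FIN hTR hMAIN

end LEQ
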