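import Mathlib
import Pool.Agent.helper32.QS.Spec

/-!
# LEQ: elimination of components in the Lefschetz form of Quillen's conjecture (MP_e82547_al)

THEOREM (`MAIN`).  `p` prime, `G` finite, `L i` (`i ∈ ι`) pairwise commuting centreless subgroups of
order divisible by `p`, permuted by `G`; `N` their product, `C = C_G(N)`, `N' = N C` (the elements of
`G` which act on every `L i` as an inner automorphism).  `U i ⊆ L i` subsets, permuted like the
`L i`, with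
(A) `∑_(u ∈ U i) χ~(A_p(L i)^u) ≠ 0`;
(B) `x ∈ G`, `x^p = 1`, `x` normalises every `L i`, and for every `i` commutes with an element of `U i`
   implies `x ∈ N'`.
If `χ~(A_p(C)^c) ≠ 0` for some `c ∈ C` then `χ~(A_p(G)^g) ≠ 0` for some `g ∈ G` (in fact in `N c`).
`FIN`: the same with `G` replaced by a quotient `G / V`, `V` a normal `p'`-subgroup.

OVERVIEW.  Notation: `Stb g E`: `E` is stable under `g`.  `EAb p E` (from `QS`): `E` is elementary
abelian (or trivial).  `Mb g E`: the Moebius function `(⊥, E)` of the lattice of `g`-stable subgroups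
of `E`.  `Ls p H g = - ∑ Mb g E` over the `g`-stable elementary abelian subgroups `E ≤ H`
(`⊥` included); `Lef G p g = Ls p ⊤ g` (`LM`).
Part 1 (XT XB XR XO XK XC): reduced Euler characteristics of posets (chain sums `XS`).
Part 2 (MB MU LM TR): the Moebius function.
Part 3 (DEC D2): formula for `Ls p ⊤ g`, `g` in a normal subgroup.
Part 4 (PRA PRO): product formula.
Part 5 (PHI W1 W3 W4 W5 WEB LX SPL): `∑_(h ∈ H) Lef H p h = 0` if `p` divides `|H|` (Webb).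
Part 6 (AC NF DJ DE PD): the structure of `N'`.
Part 7 (CA1 CA2 EMP FAC MAIN FIN): the proof, with weights `z^n(g)`, `z` a primitive `p`-th root of unity.

RULES.  Row `XX`: file `Pool/Agent/<seat>/LEQ/XX.lean`, `import Pool.Agent.helper82.LEQ.Spec`,
`namespace LEQ`, `open QS (Lef EAb)`, `theorem XX (h1 : YY_stmt) ... : XX_stmt` with only the hypotheses
named after `From` (in this order); auxiliary lemmas prefixed `XX_`.  No `convert`, no `congr!`, no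
`native_decide`, no straight double quotes.
-/

set_option autoImplicit false

namespace LEQ

open scoped BigOperators
open QS (Lef EAb)

/-! ## Definitions -/

/-- the finite set of all `x` with `P x` -/
noncomputable def FS {α : Type} [Finite α] (P : α → Prop) : Finset α :=
  (Set.toFinite {x : α | P x}).toFinset

theorem mem_FS {α : Type} [Finite α] {P : α → Prop} {x : α} : x ∈ FS P ↔ P x := by
  unfold FS
  rw [Set.Finite.mem_toFinset]
  exact Iff.rfl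

/-- the reduced Euler characteristic of the poset of all `x` with `P x` (sum over its chains) -/
noncomputable def XS {α : Type} [PartialOrder α] [Finite α] (P : α → Prop) : ℤ :=
  ∑ s ∈ FS (fun s : Finset α => IsChain (· ≤ ·) (s : Set α) ∧ ∀ x ∈ s, P x),
    (-1 : ℤ) ^ (s.card + 1)

/-- `E` is stable under conjugation by `g` -/
def Stb {G : Type} [Group G] (g : G) (E : Subgroup G) : Prop := ∀ x : G, x ∈ E ↔ g * x * g⁻¹ ∈ E

open Classical in
/-- the Moebius function `(⊥, E)` of the lattice of the `g`-stable subgroups of `E` -/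
noncomputable def Mb {G : Type} [Group G] [Finite G] (g : G) (E : Subgroup G) : ℤ :=
  if E = ⊥ then 1 else XS (fun F : Subgroup G => F ≠ ⊥ ∧ F < E ∧ Stb g F)

/-- the reduced Euler characteristic of the poset of the nontrivial `g`-stable elementary abelian
subgroups of `H` (see `LM`, `TR`) -/
noncomputable def Ls {G : Type} [Group G] [Finite G] (p : ℕ) (H : Subgroup G) (g : G) : ℤ :=
  - ∑ E ∈ FS (fun E : Subgroup G => E ≤ H ∧ EAb p E ∧ Stb g E), Mb g E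

/-- the centraliser of `E` -/
def Cn {G : Type} [Group G] (E : Subgroup G) : Subgroup G := Subgroup.centralizer (E : Set G)

/-- `E` normalises `A` -/
def Nz {G : Type} [Group G] (E A : Subgroup G) : Prop := ∀ e ∈ E, Stb e A

/-- `A` and `B` commute elementwise and intersect trivially -/
def Dir {G : Type} [Group G] (A B : Subgroup G) : Prop :=
  (∀ a ∈ A, ∀ b ∈ B, a * b = b * a) ∧ A ⊓ B = ⊥

/-! ### The family -/

section family

variable {G : Type} [Group G] {ι : Type} (L : ι → Subgroup G)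

/-- `g` acts on `L i` as conjugation by `a ∈ L i` -/
def Act (i : ι) (g a : G) : Prop := a ∈ L i ∧ ∀ z ∈ L i, g * z * g⁻¹ = a * z * a⁻¹

open Classical in
/-- the component of `g` in `L i` -/
noncomputable def pr (i : ι) (g : G) : G := if h : ∃ a, Act L i g a then h.choose else 1

/-- the elements acting on every `L i` as an inner automorphism -/
def Np : Subgroup G where
  carrier := {g | ∀ i, ∃ a, Act L i g a}
  one_mem' := fun i => ⟨1, (L i).one_mem, fun z _ => rfl⟩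
  mul_mem' := by
    intro g h hg hh i
    obtain ⟨a, ha, ha'⟩ := hg i
    obtain ⟨b, hb, hb'⟩ := hh i
    refine ⟨a * b, (L i).mul_mem ha hb, fun z hz => ?_⟩
    have h1 : b * z * b⁻¹ ∈ L i := (L i).mul_mem ((L i).mul_mem hb hz) ((L i).inv_mem hb)
    have h2 : g * h * z * (g * h)⁻¹ = g * (h * z * h⁻¹) * g⁻¹ := by group
    rw [h2, hb' z hz, ha' _ h1]
    group
  inv_mem' := by
    intro g hg i
    obtain ⟨a, ha, ha'⟩ := hg i
    refine ⟨a⁻¹, (L i).inv_mem ha, fun z hz => ?_⟩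
    have h1 : a⁻¹ * z * a ∈ L i := (L i).mul_mem ((L i).mul_mem ((L i).inv_mem ha) hz) ha
    have h2 := ha' _ h1
    have h3 : a * (a⁻¹ * z * a) * a⁻¹ = z := by group
    rw [h3] at h2
    have h4 : g⁻¹ * z * g⁻¹⁻¹ = g⁻¹ * (g * (a⁻¹ * z * a) * g⁻¹) * g := by rw [h2]; group
    rw [h4]
    group

/-- the subgroup generated by the `L j`, `j ∈ J` -/
def NJ (J : Set ι) : Subgroup G := ⨆ j ∈ J, L j

/-- the elements of `N'` whose components in `L j`, `j ∈ J`, are trivial -/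
def BJ (J : Set ι) : Subgroup G where
  carrier := {g | g ∈ Np L ∧ ∀ j ∈ J, ∀ z ∈ L j, g * z = z * g}
  one_mem' := ⟨(Np L).one_mem, fun j _ z _ => by rw [one_mul, mul_one]⟩
  mul_mem' := by
    rintro g h ⟨hg, hg'⟩ ⟨hh, hh'⟩
    refine ⟨(Np L).mul_mem hg hh, fun j hj z hz => ?_⟩
    rw [mul_assoc, hh' j hj z hz, ← mul_assoc, hg' j hj z hz, mul_assoc]
  inv_mem' := by
    rintro g ⟨hg, hg'⟩
    refine ⟨(Np L).inv_mem hg, fun j hj z hz => ?_⟩
    have := hg' j hj z hz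
    rw [inv_mul_eq_iff_eq_mul, ← mul_assoc, this, mul_inv_cancel_right]

/-- the centraliser of all the `L i` -/
def Cc : Subgroup G where
  carrier := {g | ∀ i, ∀ z ∈ L i, g * z = z * g}
  one_mem' := fun i z _ => by rw [one_mul, mul_one]
  mul_mem' := by
    intro g h hg hh i z hz
    rw [mul_assoc, hh i z hz, ← mul_assoc, hg i z hz, mul_assoc]
  inv_mem' := by
    intro g hg i z hz
    have := hg i z hz
    rw [inv_mul_eq_iff_eq_mul, ← mul_assoc, this, mul_inv_cancel_right]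

/-- pairwise commuting centreless subgroups of order divisible by `p`, permuted by `G` -/
structure Fam (p : ℕ) : Prop where
  perm : ∀ (g : G) (i : ι), ∃ j, ∀ x : G, x ∈ L i ↔ g * x * g⁻¹ ∈ L j
  comm : ∀ i j, i ≠ j → ∀ x ∈ L i, ∀ y ∈ L j, x * y = y * x
  cent : ∀ i, ∀ x ∈ L i, (∀ y ∈ L i, x * y = y * x) → x = 1
  dvd : ∀ i, p ∣ Nat.card (L i)

/-- subsets `U i ⊆ L i` permuted by `G` like the `L i` -/
structure Sub (U : ι → Set G) : Prop where
  sub : ∀ i, ∀ u ∈ U i, u ∈ L i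
  perm : ∀ (g : G) (i j : ι), (∀ x : G, x ∈ L i ↔ g * x * g⁻¹ ∈ L j) → ∀ u ∈ U i, g * u * g⁻¹ ∈ U j

/-- the number of components of `g` in the sets `U i` -/
noncomputable def nu (U : ι → Set G) (g : G) : ℕ := Nat.card {i : ι // pr L i g ∈ U i}

open Classical in
/-- the weight `z^n(g)` on the coset `N c`, `0` outside -/
noncomputable def wt (U : ι → Set G) (z : ℂ) (c g : G) : ℂ :=
  if g * c⁻¹ ∈ NJ L Set.univ then z ^ nu L U g else 0

/-- the weighted sum over `H ∩ N c` -/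
noncomputable def TT [Finite G] (p : ℕ) (U : ι → Set G) (z : ℂ) (c : G) (H : Subgroup G) : ℂ :=
  ∑ g ∈ FS (fun g : G => g ∈ H), wt L U z c g * (Ls p H g : ℂ)

/-- the set of all `g ∈ H ∩ N c` all of whose components are in the sets `U i` -/
noncomputable def GU [Finite G] (U : ι → Set G) (c : G) (H : Subgroup G) : Finset G :=
  FS (fun g : G => g ∈ H ∧ g * c⁻¹ ∈ NJ L Set.univ ∧ ∀ i, pr L i g ∈ U i)

end family

/-! ## Part 1: posets -/

/-- XT (From nothing).  Group the chains by their largest member.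

PROOF.  The empty chain contributes `-1`.  A nonempty chain `s` has a largest member `x` (`P x`), and
`s ∖ {x}` is a chain of elements `y < x` with `P y`; this is a bijection of the chains with largest
member `x` with the chains of `{y | P y ∧ y < x}`, `card s = card (s ∖ {x}) + 1`. -/
def XT_stmt : Prop :=
  ∀ (α : Type) [PartialOrder α] [Finite α] (P : α → Prop),
    XS P = -1 - ∑ x ∈ FS P, XS (fun y => P y ∧ y < x)

/-- XB (From XT).  The same with the smallest member.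

PROOF.  XT for the dual order `αᵒᵈ` (a chain of `α` is a chain of `αᵒᵈ`), or repeat the proof. -/
def XB_stmt : Prop :=
  ∀ (α : Type) [PartialOrder α] [Finite α] (P : α → Prop),
    XS P = -1 - ∑ x ∈ FS P, XS (fun y => P y ∧ x < y)

/-- XR (From nothing).  Deletion of an element.

PROOF.  The chains not containing `a` give the first term.  A chain containing `a` is
`s₁ ∪ {a} ∪ s₂` with `s₁` a chain of `{y | P y ∧ y < a}`, `s₂` a chain of `{y | P y ∧ a < y}` (and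
conversely), and `(-1)^(|s₁| + 1 + |s₂| + 1) = (-1)^(|s₁| + 1) (-1)^(|s₂| + 1)`. -/
def XR_stmt : Prop :=
  ∀ (α : Type) [PartialOrder α] [Finite α] (P : α → Prop) (a : α), P a →
    XS P = XS (fun y => P y ∧ y ≠ a) + XS (fun y => P y ∧ y < a) * XS (fun y => P y ∧ a < y)

/-- XO (From XR).  A poset with a largest element.

PROOF.  XR for the largest element `a`: `{y | P y ∧ y ≠ a} = {y | P y ∧ y < a}` and
`{y | P y ∧ a < y}` is empty, so its `XS` is `-1` (only the empty chain). -/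
def XO_stmt : Prop :=
  ∀ (α : Type) [PartialOrder α] [Finite α] (P : α → Prop) (a : α), P a → (∀ y, P y → y ≤ a) →
    XS P = 0

/-- XK (From XR XO).  Conical contraction.

PROOF.  Strong induction on the number of elements of `{y | P y}`.  We remove the
elements `y` with `P y` and not `y ≤ a` one after another, always a maximal one of the remaining
ones of this kind (induct on the number of the elements still to be removed; the statement of
this inner induction: for a set `R` of elements with `P`, containing all `y` with `P y`, `y ≤ a`,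
and such that `P y'`, `y' ≤ y ∈ R` implies `y' ∈ R`, `XS (· ∈ R) = XS (fun y => P y ∧ y ≤ a)`).
When `y` is removed the elements `y' < y` of the remaining
poset are all `y'` with `P y'`, `y' < y` (those removed before are not `< y`). For them
`f y' ≤ y'`, `f y' ≤ f y`, and `f y < y` (`f y ≤ a`, so `f y ≠ y`), so `{y' | P y' ∧ y' < y}` satisfies the
hypotheses with `a` replaced by `f y`; it is smaller than `P`, so its `XS` is `0`, and by XR the removal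
does not change `XS`.  At the end remains `{y | P y ∧ y ≤ a}`, whose `XS` is `0` by XO. -/
def XK_stmt : Prop :=
  ∀ (α : Type) [PartialOrder α] [Finite α] (P : α → Prop) (a : α) (f : α → α), P a →
    (∀ y, P y → P (f y)) → (∀ y, P y → f y ≤ y) → (∀ y, P y → f y ≤ a) →
    (∀ y y', P y → P y' → y ≤ y' → f y ≤ f y') → XS P = 0

/-- XC (From XR XK).  Retraction.

PROOF.  Induction on the number of elements of the set of all `x` with `R x` and not `Q x`, for all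
`R` between `P ∧ Q` and `P` (`R` instead of `P`; `f` maps `R` to `P ∧ Q`, hence to `R`).  If there is such
an `x` then in `{y | R y ∧ y < x}` we have `a = f x` (`f x ≤ x`, `f x ≠ x` as `Q (f x)`), and
`f y ≤ f x`, `f y ≤ y` and `f y < x`, `R (f y)` for all its members `y`.  By XK its `XS` is `0`, so by XR
`XS R = XS (fun y => R y ∧ y ≠ x)`.  At the end `R = P ∧ Q`. -/
def XC_stmt : Prop :=
  ∀ (α : Type) [PartialOrder α] [Finite α] (P Q : α → Prop) (f : α → α),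
    (∀ y, P y → P (f y) ∧ Q (f y)) → (∀ y, P y → f y ≤ y) → (∀ y, P y → Q y → f y = y) →
    (∀ y y', P y → P y' → y ≤ y' → f y ≤ f y') → XS P = XS (fun y => P y ∧ Q y)

/-! ## Part 2: the Moebius function -/

/-- MB (From XT).  The defining property of `Mb`.

PROOF.  If `E = ⊥` the only `F` is `⊥`.  If `E ≠ ⊥`: the sum is `Mb g ⊥ + ∑ Mb g F + Mb g E`, the
middle sum over the `F ≠ ⊥`, `F < E`, `Stb g F`; XT for this poset gives
`Mb g E = -1 - ∑ XS (fun F' => (F' ≠ ⊥ ∧ F' < E ∧ Stb g F') ∧ F' < F) = -1 - ∑ Mb g F`. -/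
def MB_stmt : Prop :=
  ∀ (G : Type) [Group G] [Finite G] (g : G) (E : Subgroup G), Stb g E →
    (E = ⊥ → ∑ F ∈ FS (fun F : Subgroup G => F ≤ E ∧ Stb g F), Mb g F = 1) ∧
    (E ≠ ⊥ → ∑ F ∈ FS (fun F : Subgroup G => F ≤ E ∧ Stb g F), Mb g F = 0)

/-- MU (From MB).  Uniqueness: `X` is a set of `g`-stable subgroups, closed under passing to `g`-stable
subgroups.

PROOF.  Strong induction on `|E|`: the two sums over `F ≤ E` agree (hypothesis and MB), and so do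
the terms for `F < E` (`X F` holds). -/
def MU_stmt : Prop :=
  ∀ (G : Type) [Group G] [Finite G] (g : G) (X : Subgroup G → Prop) (f : Subgroup G → ℤ),
    (∀ E, X E → Stb g E) → (∀ E F, X E → F ≤ E → Stb g F → X F) →
    (∀ E, X E → (E = ⊥ → ∑ F ∈ FS (fun F : Subgroup G => F ≤ E ∧ Stb g F), f F = 1) ∧
      (E ≠ ⊥ → ∑ F ∈ FS (fun F : Subgroup G => F ≤ E ∧ Stb g F), f F = 0)) →
    ∀ E, X E → f E = Mb g E

/-- LM (From XT).

PROOF.  `Lef G p g` (a `finsum` over chains) is `XS (fun E => E ≠ ⊥ ∧ EAb p E ∧ Stb g E)`.  By XT this is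
`-1 - ∑_E XS (fun F => (F ≠ ⊥ ∧ EAb p F ∧ Stb g F) ∧ F < E)`, and for `F < E`, `EAb p E` we have `EAb p F`,
so the term is `Mb g E`; and `Mb g ⊥ = 1`. -/
def LM_stmt : Prop :=
  ∀ (G : Type) [Group G] [Finite G] (p : ℕ) (g : G), Lef G p g = Ls p (⊤ : Subgroup G) g

/-- TR (From LM).  Transfer to the group `H`.

PROOF.  `E ↦ E.map H.subtype` is an order isomorphism from the subgroups of `H` to
the subgroups of `G` contained in `H`, respecting `⊥`, `EAb`, and `Stb h` (for `h ∈ H`).  So it transports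
the chains, `Mb` and the sum `Ls`. -/
def TR_stmt : Prop :=
  ∀ (G : Type) [Group G] [Finite G] (p : ℕ) (H : Subgroup G) (h : H),
    Lef H p h = Ls p H (h : G)

/-! ## Part 3 -/

/-- DEC (From MB MU).

PROOF.  For a `g`-stable `E` with `EAb p E` put `D = E ⊓ N`, `g`-stable as `g ∈ N`.  For `e ∈ E` the element
`e g e⁻¹ g⁻¹` is in `N` (normal) and in `E` (`g`-stable).  Let `f E` be the right hand side
(`f E = 0` if not `EAb p E ∧ Stb g E`).  Use MU with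
`X E = (EAb p E ∧ Stb g E)`.  Let `X E`.  The pairs `(E', F)` with `E' ≤ E`, `Stb g E'`, and `F` as in `f E'`
correspond bijectively to the pairs `(D', F)`, `D' ≤ E ⊓ N`, `Stb g D'`, `F ≤ E`, `F ⊓ N = ⊥`,
`F` centralised by `g`: `D' = E' ⊓ N`, `E' = F ⊔ D'` (`(F ⊔ D') ⊓ N = D'`: `x = f d ∈ N`, `d ∈ D' ≤ N`
implies `f ∈ F ⊓ N = ⊥`).  So the sum of `f E'` is the product of `∑ Mb g D'` over `D' ≤ E ⊓ N`, which by
MB is `1` or `0` according to whether `E ⊓ N = ⊥` or not, and of `∑ Mb 1 F`.  If `E ⊓ N = ⊥` then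
`e g e⁻¹ g⁻¹ = 1` for all `e ∈ E`, so `F` runs over all subgroups of `E`, `∑ Mb 1 F` is given by MB for
`g = 1`, and it is `1` if `E = ⊥` and `0` if not. -/
def DEC_stmt : Prop :=
  ∀ (G : Type) [Group G] [Finite G] (p : ℕ) (N : Subgroup G), N.Normal → ∀ g ∈ N,
    ∀ E : Subgroup G, EAb p E → Stb g E →
    Mb g E = ∑ F ∈ FS (fun F : Subgroup G => F ≤ E ∧ F ⊓ N = ⊥ ∧ F ⊔ (E ⊓ N) = E ∧
      ∀ x ∈ F, g * x = x * g), Mb 1 F * Mb g (E ⊓ N)

/-- D2 (From DEC).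

PROOF.  Insert DEC in `Ls p ⊤ g = - ∑_E Mb g E`.  The pairs `(E, F)` with `EAb p E`, `Stb g E`, `F` as in
DEC correspond bijectively to the pairs `(D, F)`, `EAb p F`, `F ⊓ N = ⊥`, `F` centralised by `g`,
`D ≤ N ⊓ Cn F`, `EAb p D`, `Stb g D`: `D = E ⊓ N`, `E = F ⊔ D`. -/
def D2_stmt : Prop :=
  ∀ (G : Type) [Group G] [Finite G] (p : ℕ) (N : Subgroup G), N.Normal → ∀ g ∈ N,
    Ls p (⊤ : Subgroup G) g = ∑ F ∈ FS (fun F : Subgroup G => EAb p F ∧ F ⊓ N = ⊥ ∧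
      ∀ x ∈ F, g * x = x * g), Mb 1 F * Ls p (N ⊓ Cn F) g

/-! ## Part 4 -/

/-- PRA (From nothing).  Projections.  For a subgroup `E ≤ H₁ ⊔ H₂` (direct) `(E ⊔ H₂) ⊓ H₁` is the
projection to `H₁` etc.

PROOF.  Every element of `H₁ ⊔ H₂` is `a b`, `a ∈ H₁`, `b ∈ H₂`, uniquely.  `(E ⊔ H₂) ⊓ H₁` is the set of
all `a ∈ H₁` such that `a b ∈ E` for some `b ∈ H₂`.  (1), (2): from `x = a b`, `y = a' b'` one gets
`x y = a a' b b'`, `x^p = a^p b^p` and uniqueness. (3): `h₁ h₂ a b (h₁ h₂)⁻¹ = h₁ a h₁⁻¹ h₂ b h₂⁻¹`.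
(4): `E ≤ E₁ ⊔ E₂` iff both projections are `≤ E₁`, `≤ E₂`. (5) clear. -/
def PRA_stmt : Prop :=
  ∀ (G : Type) [Group G] [Finite G] (p : ℕ) (H₁ H₂ : Subgroup G), Dir H₁ H₂ →
    ∀ h₁ ∈ H₁, ∀ h₂ ∈ H₂,
    (∀ E : Subgroup G, E ≤ H₁ ⊔ H₂ → EAb p E → EAb p ((E ⊔ H₂) ⊓ H₁) ∧ EAb p ((E ⊔ H₁) ⊓ H₂)) ∧
    (∀ E₁ E₂ : Subgroup G, E₁ ≤ H₁ → E₂ ≤ H₂ → EAb p E₁ → EAb p E₂ → EAb p (E₁ ⊔ E₂)) ∧
    (∀ E : Subgroup G, E ≤ H₁ ⊔ H₂ → Stb (h₁ * h₂) E →
      Stb h₁ ((E ⊔ H₂) ⊓ H₁) ∧ Stb h₂ ((E ⊔ H₁) ⊓ H₂)) ∧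
    (∀ E E₁ E₂ : Subgroup G, E ≤ H₁ ⊔ H₂ → E₁ ≤ H₁ → E₂ ≤ H₂ →
      (E ≤ E₁ ⊔ E₂ ↔ (E ⊔ H₂) ⊓ H₁ ≤ E₁ ∧ (E ⊔ H₁) ⊓ H₂ ≤ E₂)) ∧
    (∀ E₁ E₂ : Subgroup G, E₁ ≤ H₁ → E₂ ≤ H₂ →
      (Stb h₁ E₁ → Stb h₂ E₂ → Stb (h₁ * h₂) (E₁ ⊔ E₂)) ∧ (E₁ ⊔ E₂ = ⊥ ↔ E₁ = ⊥ ∧ E₂ = ⊥))

/-- PRO (From MB PRA).  Product formula.

PROOF.  `h = h₁ h₂`.  For `E₁ ≤ H₁`, `E₂ ≤ H₂` (`EAb`, `Stb h₁ E₁`, `Stb h₂ E₂`) let `Φ(E₁, E₂)` be the sum of
`Mb h E` over all `E ≤ H₁ ⊔ H₂`, `Stb h E`, `EAb p E`, with projections `(E ⊔ H₂) ⊓ H₁ = E₁` and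
`(E ⊔ H₁) ⊓ H₂ = E₂`.
Then `∑ Φ(F₁, F₂)` over all `F₁ ≤ E₁`, `F₂ ≤ E₂` (`Stb h₁ F₁`, `Stb h₂ F₂`) is the sum of `Mb h E` over all
`h`-stable `E ≤ E₁ ⊔ E₂` (PRA), which by MB is `1` if `E₁ = E₂ = ⊥` and `0` otherwise.  The same holds
with `Mb h₁ F₁ * Mb h₂ F₂` instead of `Φ(F₁, F₂)` (product of two sums given by MB).  So
`Φ(E₁, E₂) = Mb h₁ E₁ * Mb h₂ E₂` by induction on `|E₁| |E₂|`.  Summing over all `(E₁, E₂)`:
`- Ls p (H₁ ⊔ H₂) h = ∑ Φ(E₁, E₂) = (- Ls p H₁ h₁) (- Ls p H₂ h₂)`. -/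
def PRO_stmt : Prop :=
  ∀ (G : Type) [Group G] [Finite G] (p : ℕ) (H₁ H₂ : Subgroup G), Dir H₁ H₂ →
    ∀ h₁ ∈ H₁, ∀ h₂ ∈ H₂, Ls p (H₁ ⊔ H₂) (h₁ * h₂) = - (Ls p H₁ h₁ * Ls p H₂ h₂)

/-! ## Part 5: Webb's theorem -/

/-- PHI (From MB).  `Mb g P = 0` if the `p`-group `P` is not elementary abelian.

PROOF.  Let `Φ` be the subgroup generated by all `x^p` and `x y x⁻¹ y⁻¹`, `x, y ∈ P`.  `Φ ≤ P`, `Φ ≠ ⊥` as not
`EAb p P`, `Stb g Φ`.  If `F ≤ P` and `F ⊔ Φ = P` then `F = P`: otherwise `F` is contained in a maximal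
subgroup `M` of the `p`-group `P`, `M` is normal of index `p` in `P`, so `Φ ≤ M`, `F ⊔ Φ ≤ M`.
For `g`-stable `E ≤ P` let `f E = ∑ Mb g F` over the `g`-stable `F ≤ P` with `F ⊔ Φ = E`.  For every
`g`-stable `E ≤ P`, `∑_(E' ≤ E, Stb g E') f E'` is the sum of `Mb g F` over the `g`-stable `F` with
`F ⊔ Φ ≤ E`: it is empty if not `Φ ≤ E`, and if `Φ ≤ E` it is the sum over all `g`-stable `F ≤ E`,
which is `0` by MB, as `E ≠ ⊥`.  So `f E = 0` for all `g`-stable `E ≤ P` by induction on `|E|`;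
`0 = f P = Mb g P`. -/
def PHI_stmt : Prop :=
  ∀ (G : Type) [Group G] [Finite G] (p : ℕ), p.Prime → ∀ (g : G) (P : Subgroup G),
    IsPGroup p P → Stb g P → ¬ EAb p P → Mb g P = 0

/-- W1 (From XT LM PHI).  `p`-subgroups instead of elementary abelian ones.

PROOF.  XT as in LM: the right hand side is `- ∑ Mb h P` over all `h`-stable `p`-subgroups `P` (also `⊥`;
subgroups of `p`-groups are `p`-groups).  By PHI only those with `EAb p P` contribute. -/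
def W1_stmt : Prop :=
  ∀ (G : Type) [Group G] [Finite G] (p : ℕ), p.Prime → ∀ h : G,
    Lef G p h = XS (fun P : Subgroup G => P ≠ ⊥ ∧ IsPGroup p P ∧ Stb h P)

/-- W3 (From XC).

PROOF.  XC with `f P = P ⊓ normalizer P₀`, `Q P = (P ≤ normalizer P₀)`.  `f P` is `h`-stable since
`h` normalises `P₀`; `P₀ < f P` if `P₀ < P`, `P` a `p`-group (normalisers grow). -/
def W3_stmt : Prop :=
  ∀ (G : Type) [Group G] [Finite G] (p : ℕ), p.Prime → ∀ (P₀ : Subgroup G) (h : G), IsPGroup p P₀ →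
    Stb h P₀ → XS (fun P : Subgroup G => P₀ < P ∧ IsPGroup p P ∧ Stb h P) =
      XS (fun P : Subgroup G => (P₀ < P ∧ IsPGroup p P ∧ Stb h P) ∧ P ≤ Subgroup.normalizer (P₀ : Set G))

/-- W4 (From W1).  `M = N_G(P₀)`.

PROOF.  The subgroups `P` with `P₀ ≤ P ≤ M` correspond to the subgroups of
`M / P₀` (order isomorphism), `P₀` to `⊥`, `p`-groups to `p`-groups (`P₀` is a `p`-group), and those
stable under `h` to those stable under its image.  Use W1 for `M / P₀`. -/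
def W4_stmt : Prop :=
  ∀ (G : Type) [Group G] [Finite G] (p : ℕ), p.Prime → ∀ (P₀ M : Subgroup G), IsPGroup p P₀ →
    M = Subgroup.normalizer (P₀ : Set G) → ∀ (_ : (P₀.subgroupOf M).Normal) (h : M),
    XS (fun P : Subgroup G => (P₀ < P ∧ IsPGroup p P ∧ Stb (h : G) P) ∧ P ≤ M) =
      Lef (M ⧸ P₀.subgroupOf M) p (h : M ⧸ P₀.subgroupOf M)

/-- W5 (From XB W1 W3 W4).  Webb's theorem (Euler characteristic of the orbit space).

PROOF.  Strong induction on `|G|`.  By W1 and XB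
`Lef G p h = -1 - ∑ XS (fun P => P₀ < P ∧ ...)` over the nontrivial `h`-stable `p`-subgroups `P₀`; by
W3, W4 the terms are `Lef (M / P₀) p h`, `M = N_G(P₀)`.  Sum over `h ∈ G` (`P₀` is `h`-stable iff
`h ∈ N_G(P₀)`): `∑_h Lef G p h = -|G| - ∑_(P₀) |P₀| ∑_(k ∈ M / P₀) Lef (M / P₀) p k`.  If `p` divides
`|M / P₀|` the inner sum is `0` by induction.  If not, `P₀` is a Sylow `p`-subgroup of `G` (otherwise it
would be properly contained in a `p`-subgroup of its normaliser), and conversely; then the only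
elementary abelian `p`-subgroup of `M / P₀` is `⊥`, `Lef (M / P₀) p k = -1`, so the contribution of `P₀`
to the total is `+ |M|`.  As `p` divides `|G|` the Sylow subgroups are nontrivial; their number is
`|G : M|`, all are conjugate, so the sum of their contributions is `|G|`. -/
def W5_stmt : Prop :=
  ∀ (G : Type) [Group G] [Finite G] (p : ℕ), p.Prime → p ∣ Nat.card G →
    ∑ h ∈ FS (fun _ : G => True), Lef G p h = 0

/-- WEB (From TR W5). -/
def WEB_stmt : Prop :=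
  ∀ (G : Type) [Group G] [Finite G] (p : ℕ), p.Prime → ∀ H : Subgroup G, p ∣ Nat.card H →
    ∑ h ∈ FS (fun h : G => h ∈ H), Ls p H h = 0

/-- SPL (From PRO WEB).

PROOF.  The elements of `H₁ ⊔ H₂` are the `h₁ h₂`, uniquely.  By PRO the sum is
`∑_(h₂ ∈ H₂) w h₂ * (- Ls p H₂ h₂) * ∑_(h₁ ∈ H₁) Ls p H₁ h₁`, and the inner sum is `0` by WEB. -/
def SPL_stmt : Prop :=
  ∀ (G : Type) [Group G] [Finite G] (p : ℕ), p.Prime → ∀ H₁ H₂ : Subgroup G, Dir H₁ H₂ →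
    p ∣ Nat.card H₁ → ∀ w : G → ℂ, (∀ h₁ ∈ H₁, ∀ h₂ ∈ H₂, w (h₁ * h₂) = w h₂) →
    ∑ g ∈ FS (fun g : G => g ∈ H₁ ⊔ H₂), w g * (Ls p (H₁ ⊔ H₂) g : ℂ) = 0

/-! ## Part 6: structure -/

/-- AC (From nothing).  The components.

PROOF.  If `g` acts on `L i` as `a` and as `b` then `b⁻¹ a ∈ L i` centralises `L i`, so `a = b` by `cent`.
For `g ∈ N'` such an `a` exists, it is `pr i g`. The rest follows from uniqueness:
`g h` acts as `pr i g * pr i h`; `a ∈ L i` acts on `L i` as `a` and on `L j`, `j ≠ i`, as `1`; `c ∈ Cc`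
as `1`; if `x L_i x⁻¹ = L_j` then `x g x⁻¹` acts on `L j` as `x (pr i g) x⁻¹`. -/
def AC_stmt : Prop :=
  ∀ (G : Type) [Group G] [Finite G] (p : ℕ), p.Prime → ∀ (ι : Type) [Finite ι]
    (L : ι → Subgroup G), Fam L p →
    (∀ i, ∀ g ∈ Np L, Act L i g (pr L i g)) ∧
    (∀ i, ∀ g a : G, Act L i g a → pr L i g = a) ∧
    (∀ i, ∀ g ∈ Np L, ∀ h ∈ Np L, pr L i (g * h) = pr L i g * pr L i h) ∧
    (∀ i, ∀ a ∈ L i, pr L i a = a ∧ a ∈ Np L ∧ ∀ j, j ≠ i → pr L j a = 1) ∧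
    (∀ c ∈ Cc L, c ∈ Np L ∧ ∀ i, pr L i c = 1) ∧
    (∀ i j, ∀ x : G, (∀ y : G, y ∈ L i ↔ x * y * x⁻¹ ∈ L j) → ∀ g ∈ Np L,
      x * g * x⁻¹ ∈ Np L ∧ pr L j (x * g * x⁻¹) = x * pr L i g * x⁻¹) ∧
    (∀ i, ∀ g ∈ Np L, pr L i g = 1 ↔ ∀ z ∈ L i, g * z = z * g)

/-- NF (From AC).  `N'` is normal; different indices give different subgroups; each `x ∈ G`
maps `L i` to a unique `L j`.

PROOF.  Normal: for `g ∈ N'`, `x ∈ G` and `j` choose `i` with `x⁻¹ L_j x = L_i` and use AC.  `L i = L j`,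
`i ≠ j`: then `L i` would be abelian (`comm`), so trivial (`cent`), but `p ∣ |L i|`. -/
def NF_stmt : Prop :=
  ∀ (G : Type) [Group G] [Finite G] (p : ℕ), p.Prime → ∀ (ι : Type) [Finite ι]
    (L : ι → Subgroup G), Fam L p →
    (Np L).Normal ∧ (∀ i j, L i = L j → i = j) ∧
    (∀ (x : G) (i j j' : ι), (∀ y : G, y ∈ L i ↔ x * y * x⁻¹ ∈ L j) →
      (∀ y : G, y ∈ L i ↔ x * y * x⁻¹ ∈ L j') → j = j')

/-- DJ (From AC).  Decomposition of `N'`.

PROOF.  Elements of `N_J` and `B_J` commute: `B_J` centralises the generators `L j`, `j ∈ J`, of `N_J`.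
If `h ∈ N_J` then `pr i h = 1` for `i ∉ J` (AC: true for generators, multiplicative).
An element of `N_J ⊓ B_J` has
all `pr j = 1` for `j ∈ J`, and for `j ∉ J` too, so it centralises all `L j`, in particular it commutes
with ... it is in `Cc`; to see that it is `1`: by induction on a finite set `J'` (with `J` in place of
`J'` at the end) `h ∈ N_J'`, all `pr j h = 1` for `j ∈ J'`, implies `h = 1`: `N_(J' ∪ {i}) = L_i N_J'`,
`h = a h'`, `pr i h = a`.
`N_J ⊔ B_J = N'`: for `g ∈ N'` there is `h ∈ N_J` with `pr j h = pr j g` for all `j ∈ J` (induction on the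
finite set `J`: multiply by `pr j g ∈ L j`), and `h⁻¹ g ∈ B_J`.
`B_univ = Cc`. -/
def DJ_stmt : Prop :=
  ∀ (G : Type) [Group G] [Finite G] (p : ℕ), p.Prime → ∀ (ι : Type) [Finite ι]
    (L : ι → Subgroup G), Fam L p →
    (∀ J : Set ι, Dir (NJ L J) (BJ L J) ∧ NJ L J ⊔ BJ L J = Np L) ∧
    (∀ J : Set ι, ∀ h ∈ NJ L J, ∀ i, i ∉ J → pr L i h = 1) ∧
    BJ L Set.univ = Cc L

/-- DE (From nothing).  Fixed points of a direct product.

PROOF.  `g = a b` with `a ∈ A`, `b ∈ B`, centralised by `e ∈ E`: `g = e g e⁻¹ = (e a e⁻¹) (e b e⁻¹)` and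
`e a e⁻¹ ∈ A`, `e b e⁻¹ ∈ B`, so `a`, `b` are centralised by `e` (uniqueness). -/
def DE_stmt : Prop :=
  ∀ (G : Type) [Group G] (A B E : Subgroup G), Dir A B → Nz E A → Nz E B →
    (A ⊔ B) ⊓ Cn E = (A ⊓ Cn E) ⊔ (B ⊓ Cn E) ∧ Dir (A ⊓ Cn E) (B ⊓ Cn E)

/-- PD (From nothing).  A `p`-group acting on a group of order divisible by `p`.

PROOF.  `E` is a `p`-group. It permutes the Sylow `p`-subgroups of `A`, whose number is `≡ 1 mod p`; so
it normalises one of them, `S ≠ 1`, and the number of fixed points of `E` on `S` is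
`≡ |S| ≡ 0 mod p`.  (Or: `A ⊔ E = A E` has a Sylow subgroup containing `E` ...)  So `A ⊓ Cn E` contains the
subgroup `S ⊓ Cn E`, of order divisible by `p`. -/
def PD_stmt : Prop :=
  ∀ (G : Type) [Group G] [Finite G] (p : ℕ), p.Prime → ∀ A E : Subgroup G, EAb p E → Nz E A →
    p ∣ Nat.card A → p ∣ Nat.card ((A ⊓ Cn E : Subgroup G))

/-! ## Part 7: the proof -/

/-- CA1 (From AC NF DJ DE PD SPL).  `E` moves the component `L i₀`.

PROOF.  `W = {j | ∃ e ∈ E, ∀ y, y ∈ L i₀ ↔ e y e⁻¹ ∈ L j}`, the `E`-orbit of `i₀`.  `|W|` is a power of `p`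
(orbit of a `p`-group; the stabiliser is a proper subgroup as `E` moves `L i₀`) and `> 1`, so
`p ∣ |W|`.  `E` normalises `A = NJ L W` and
`B = BJ L W`, and `N' = A × B` (DJ).  By DE `N' ⊓ Cn E = H₁ × H₂`, `H₁ = A ⊓ Cn E`, `H₂ = B ⊓ Cn E`; `p`
divides `|H₁|` by PD (`L i₀ ≤ A`).  For `h₁ ∈ H₁`, `h₂ ∈ H₂`: `h₁ h₂ c⁻¹ ∈ N` iff `h₂ c⁻¹ ∈ N`
(`h₁ ∈ N = NJ L univ`); `pr j (h₁ h₂)` is `pr j h₁` for `j ∈ W` (as `pr j h₂ = 1`) and `pr j h₂` for
`j ∉ W`. If `e ∈ E`, `e L_i e⁻¹ = L_j` then `pr j h₁ = pr j (e h₁ e⁻¹) = e (pr i h₁) e⁻¹` (AC), so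
`pr j h₁ ∈ U j` iff `pr i h₁ ∈ U i` (`Sub.perm` for `e` and `e⁻¹`).  So the number of `j ∈ W` with
`pr j h₁ ∈ U j` is `0` or `|W|`, and `z^|W| = 1`: `wt (h₁ h₂) = z^(#{j ∉ W : pr j h₂ ∈ U j})` or `0`
does not depend on `h₁`, in particular it is equal to `wt h₂` (up to replacing `h₁` by `1`: for `h₁ = 1` the
number of `j ∈ W` is again `0` or `|W|`).  SPL. -/
def CA1_stmt : Prop :=
  ∀ (G : Type) [Group G] [Finite G] (p : ℕ), p.Prime → ∀ (ι : Type) [Finite ι]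
    (L : ι → Subgroup G), Fam L p → ∀ U : ι → Set G, Sub L U → ∀ z : ℂ, z ^ p = 1 →
    ∀ c ∈ Cc L, ∀ E : Subgroup G, EAb p E → ∀ i₀ : ι, ¬ Nz E (L i₀) →
    TT L p U z c (Np L ⊓ Cn E) = 0

/-- CA2 (From AC NF DJ DE PD SPL).  `E` normalises all `L i` (for instance `E = ⊥`).

PROOF.  `z^n(g) = ∏_i (1 + (z - 1) 1_(pr i g ∈ U i)) = ∑_(J ⊆ ι) (z - 1)^|J| 1_(pr j g ∈ U j ∀ j ∈ J)`.  For
`J ≠ ι` choose `i ∉ J` and put `A = NJ L {i} = L i`, `B = BJ L {i}`: `N' ⊓ Cn E = H₁ × H₂` as in CA1,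
`p ∣ |H₁|`; the function `w g = 1` if `g c⁻¹ ∈ N` and `pr j g ∈ U j` for all `j ∈ J`, `w g = 0` otherwise,
satisfies `w (h₁ h₂) = w h₂` since `h₁ ∈ L i ≤ N`, `pr j h₁ = 1` for `j ∈ J`.  So by SPL only
`J = ι` contributes. -/
def CA2_stmt : Prop :=
  ∀ (G : Type) [Group G] [Finite G] (p : ℕ), p.Prime → ∀ (ι : Type) [Finite ι]
    (L : ι → Subgroup G), Fam L p → ∀ U : ι → Set G, Sub L U → ∀ z : ℂ, ∀ c ∈ Cc L,
    ∀ E : Subgroup G, EAb p E → (∀ i, Nz E (L i)) →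
    TT L p U z c (Np L ⊓ Cn E) =
      (z - 1) ^ Nat.card ι * ∑ g ∈ GU L U c (Np L ⊓ Cn E), (Ls p (Np L ⊓ Cn E) g : ℂ)

/-- EMP (From AC).

PROOF.  Let `g ∈ GU`, `x ∈ E`.  `x g x⁻¹ = g`, `x` normalises every `L i`, so `pr i g = x (pr i g) x⁻¹`
(AC), i.e. `x` commutes with `pr i g ∈ U i`.  `x^p = 1`.  So `x` acts on each `L i` as an inner
automorphism, `x ∈ N' ⊓ E = ⊥`.  Hence `E = ⊥`. -/
def EMP_stmt : Prop :=
  ∀ (G : Type) [Group G] [Finite G] (p : ℕ), p.Prime → ∀ (ι : Type) [Finite ι]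
    (L : ι → Subgroup G), Fam L p → ∀ U : ι → Set G, Sub L U →
    (∀ x : G, x ^ p = 1 → (∀ i, Stb x (L i)) → (∀ i, ∃ u ∈ U i, x * u = u * x) → x ∈ Np L) →
    ∀ (c : G) (E : Subgroup G), EAb p E → E ⊓ Np L = ⊥ → (∀ i, Nz E (L i)) → E ≠ ⊥ →
    GU L U c (Np L ⊓ Cn E) = ∅

/-- FAC (From AC DJ PRO).

PROOF.  For finite `J ⊆ ι` let `H_J = NJ L J ⊔ Cc L` and let `S_J` be the sum of `Ls p H_J g` over all
`g ∈ H_J` with `g c⁻¹ ∈ NJ L J` and `pr j g ∈ U j` for all `j ∈ J`.  Claim: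
`S_J = (-1)^|J| ∏_(j ∈ J) (∑_(u ∈ U j) Ls p (L j) u) * Ls p (Cc L) c`.  `J = ∅`: `g = c`.  Step `J ∪ {i}`:
`H_(J ∪ {i}) = L i ⊔ H_J`, direct; `g = a h`, `a = pr i g ∈ L i`, `h ∈ H_J`; the conditions are `a ∈ U i` and
the conditions of `S_J` for `h`; `Ls p (L i ⊔ H_J) (a h) = - Ls p (L i) a * Ls p H_J h` (PRO). For `J = univ`
`H_J = N'` (DJ). -/
def FAC_stmt : Prop :=
  ∀ (G : Type) [Group G] [Finite G] (p : ℕ), p.Prime → ∀ (ι : Type) [Finite ι]
    (L : ι → Subgroup G), Fam L p → ∀ U : ι → Set G, Sub L U → ∀ c ∈ Cc L,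
    (∀ i, ∑ u ∈ FS (fun u : G => u ∈ U i), Ls p (L i) u ≠ 0) → Ls p (Cc L) c ≠ 0 →
    ∑ g ∈ GU L U c (Np L), Ls p (Np L) g ≠ 0

/-- MAIN (From NF LM D2 CA1 CA2 EMP FAC).

PROOF.  Suppose `Lef G p g = 0` for all `g`.  `z = exp(2 π i / p)`, `z^p = 1`, `z ≠ 1`.
`0 = ∑_(g ∈ N') wt g * Ls p ⊤ g` (LM) `= ∑_g wt g ∑_F Mb 1 F * Ls p (N' ⊓ Cn F) g` (D2 with `N = N'`, normal
by NF) `= ∑_F Mb 1 F * TT (N' ⊓ Cn F)`, `F` running over all subgroups with `EAb p F`, `F ⊓ N' = ⊥`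
(exchange the sums: `g ∈ N'` is centralised by `F` iff `g ∈ N' ⊓ Cn F`).
If `F` moves some `L i` the term is `0` by CA1.  If not and `F ≠ ⊥` it is
`0` by CA2 and EMP.  `F = ⊥`: `Mb 1 ⊥ = 1`, `N' ⊓ Cn ⊥ = N'`, and the term is
`(z - 1)^|ι| * ∑_(GU) Ls p N' g ≠ 0` by CA2 and FAC.  Contradiction. -/
def MAIN_stmt : Prop :=
  ∀ (G : Type) [Group G] [Finite G] (p : ℕ), p.Prime → ∀ (ι : Type) [Finite ι]
    (L : ι → Subgroup G), Fam L p → ∀ U : ι → Set G, Sub L U →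
    (∀ i, ∑ u ∈ FS (fun u : G => u ∈ U i), Ls p (L i) u ≠ 0) →
    (∀ x : G, x ^ p = 1 → (∀ i, Stb x (L i)) → (∀ i, ∃ u ∈ U i, x * u = u * x) → x ∈ Np L) →
    (∃ c ∈ Cc L, Ls p (Cc L) c ≠ 0) → ∃ g : G, Lef G p g ≠ 0

/-- FIN (From TR MAIN).  The final statement, in a quotient `G / V` by a normal `p'`-subgroup.

PROOF.  MAIN for `G / V` (TR for the groups `L i` and `Cc L`; `a` in the conclusion of the
hypothesis `hB` gives `x ∈ Np L`).  The sum over `u : L i` with `(u : G ⧸ V) ∈ U i` is the sum over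
`FS (· ∈ U i)`, as `U i ⊆ L i`.  So some `Lef (G / V) p y ≠ 0`, `y = g V`, and
by `QS.COI` (with `QS.LF1`; modules Pool.Agent.helper65.QS.COI, Pool.Agent.helper97.QS.LF1)
`∑ᶠ v : V, Lef G p (g v) = |V| * Lef (G / V) p y ≠ 0`. -/
def FIN_stmt : Prop :=
  ∀ (G : Type) [Group G] [Finite G] (p : ℕ), p.Prime → ∀ (V : Subgroup G) [V.Normal],
    ¬ p ∣ Nat.card V → ∀ (ι : Type) [Finite ι] (L : ι → Subgroup (G ⧸ V)), Fam L p →
    ∀ U : ι → Set (G ⧸ V), Sub L U →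
    (∀ i, ∑ᶠ (u : L i) (_ : (u : G ⧸ V) ∈ U i), Lef (L i) p u ≠ 0) →
    (∀ x : G ⧸ V, x ^ p = 1 → (∀ i, Stb x (L i)) → (∀ i, ∃ u ∈ U i, x * u = u * x) →
      ∀ i, ∃ a ∈ L i, ∀ y ∈ L i, x * y * x⁻¹ = a * y * a⁻¹) →
    (∃ c : Cc L, Lef (Cc L) p c ≠ 0) → ∃ g : G, Lef G p g ≠ 0

end LEQ
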